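import Pool.Agent.Y251.LT.Stm

/-!
# LT-CEN: Taylor expansion at the saddle point
-/

set_option autoImplicit false

open MeasureTheory Complex Metric Set Filter Topology
open scoped Real ComplexConjugate

namespace Pool.Agent.Y314.LT

open Pool.Agent.Y251.LT

theorem line_deriv (f : ℂ → ℂ) (f' v : ℂ) (s : ℝ) (h : HasDerivAt f f' ((s : ℂ) * v)) :
    HasDerivAt (fun s : ℝ => f ((s : ℂ) * v)) (f' * v) s := by
  have h1 : HasDerivAt (fun z : ℂ => z * v) v (s : ℂ) := by
    simpa using (hasDerivAt_id (s : ℂ)).mul_const v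
  exact (h.comp (s : ℂ) h1).comp_ofReal

/-- Taylor's formula with the sharp constant -/
theorem taylor2 (f f1 f2 : ℂ → ℂ) (v : ℂ) (M : ℝ)
    (h1 : ∀ s : ℝ, s ∈ Icc (0 : ℝ) 1 → HasDerivAt f (f1 ((s : ℂ) * v)) ((s : ℂ) * v))
    (h2 : ∀ s : ℝ, s ∈ Icc (0 : ℝ) 1 → HasDerivAt f1 (f2 ((s : ℂ) * v)) ((s : ℂ) * v))
    (h0 : f 0 = 0) (h0' : f1 0 = 0)
    (hM : ∀ s : ℝ, s ∈ Icc (0 : ℝ) 1 → ‖f2 ((s : ℂ) * v)‖ ≤ M) : ‖f v‖ ≤ M * ‖v‖ ^ 2 / 2 := by
  have k1 : ∀ s : ℝ, s ∈ Icc (0 : ℝ) 1 → ‖f1 ((s : ℂ) * v)‖ ≤ M * ‖v‖ * s := by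
    intro s hs
    refine image_norm_le_of_norm_deriv_right_le_deriv_boundary (a := 0) (b := 1)
      (f := fun s : ℝ => f1 ((s : ℂ) * v)) (f' := fun s : ℝ => f2 ((s : ℂ) * v) * v)
      (B := fun s => M * ‖v‖ * s) (B' := fun _ => M * ‖v‖) ?_ ?_ ?_ ?_ ?_ hs
    · intro s hs
      exact (line_deriv f1 _ v s (h2 s hs)).continuousAt.continuousWithinAt
    · intro s hs
      exact (line_deriv f1 _ v s (h2 s (Ico_subset_Icc_self hs))).hasDerivWithinAt
    · simp [h0']
    · intro x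
      simpa using (hasDerivAt_id x).const_mul (M * ‖v‖)
    · intro s hs
      rw [norm_mul]
      exact mul_le_mul_of_nonneg_right (hM s (Ico_subset_Icc_self hs)) (norm_nonneg _)
  have k2 := image_norm_le_of_norm_deriv_right_le_deriv_boundary (a := 0) (b := 1)
      (f := fun s : ℝ => f ((s : ℂ) * v)) (f' := fun s : ℝ => f1 ((s : ℂ) * v) * v)
      (B := fun s => M * ‖v‖ ^ 2 * s ^ 2 / 2) (B' := fun s => M * ‖v‖ ^ 2 * s) (by
        intro s hs
        exact (line_deriv f _ v s (h1 s hs)).continuousAt.continuousWithinAt) (by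
        intro s hs
        exact (line_deriv f _ v s (h1 s (Ico_subset_Icc_self hs))).hasDerivWithinAt)
      (by simp [h0]) (by
        intro x
        have := ((hasDerivAt_pow 2 x).const_mul (M * ‖v‖ ^ 2)).div_const 2
        refine this.congr_deriv ?_
        simp only [Nat.add_one_sub_one, pow_one]
        push_cast
        ring) (by
        intro s hs
        rw [norm_mul]
        have := mul_le_mul_of_nonneg_right (k1 s (Ico_subset_Icc_self hs)) (norm_nonneg v)
        calc ‖f1 ((s : ℂ) * v)‖ * ‖v‖ ≤ M * ‖v‖ * s * ‖v‖ := this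
          _ = M * ‖v‖ ^ 2 * s := by ring) (x := 1) (by simp)
  simpa using k2

theorem cen : S_CEN := by
  intro q X p hq hX hp y hy
  have hq0 : 0 < q := by linarith
  have hq1 : 1 ≤ q := by linarith
  set K : ℝ := q ^ 8 with hK
  have hK0 : 0 < K := by positivity
  set b : ℂ := deriv p 0 with hb
  have hbn : ‖b‖ ≤ 32 * q ^ 3 := hp.b1 0 (by simp; positivity)
  -- sizes
  have e5 : (10 : ℝ) ^ 40 ≤ q ^ 5 := by
    calc (10 : ℝ) ^ 40 = (10 ^ 8) ^ 5 := by norm_num
      _ ≤ q ^ 5 := by gcongr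
  have hbK : ‖b‖ ≤ K / 1000 := by
    have : q ^ 8 = q ^ 3 * q ^ 5 := by ring
    rw [hK, this]
    have h3 : 0 < q ^ 3 := by positivity
    nlinarith
  have hKb : K * (99 / 100) ≤ ‖(K : ℂ) + b‖ := by
    have h1 := norm_sub_norm_le (K : ℂ) (-b)
    rw [sub_neg_eq_add, norm_neg, Complex.norm_real, Real.norm_of_nonneg hK0.le] at h1
    linarith
  have hKb0 : (K : ℂ) + b ≠ 0 := by
    intro h
    rw [h, norm_zero] at hKb
    linarith
  have hqK : ((q : ℂ) ^ 8) = (K : ℂ) := by rw [hK]; push_cast; rfl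
  -- the radius
  have hr : 1 / (4 * q ^ 8) ≤ 1 / (8 * q ^ 6) := by
    apply one_div_le_one_div_of_le (by positivity)
    have : q ^ 8 = q ^ 6 * q ^ 2 := by ring
    rw [this]
    have h6 : 0 < q ^ 6 := by positivity
    have : (2 : ℝ) ≤ q ^ 2 := by nlinarith
    nlinarith
  have hr2 : 1 / (8 * q ^ 6) ≤ 1 / (4 * q ^ 6) :=
    one_div_le_one_div_of_le (by positivity) (by have : 0 < q ^ 6 := by positivity
                                                 linarith)
  have hr3 : 1 / (8 * q ^ 6) ≤ 1 / (2 * q ^ 6) :=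
    one_div_le_one_div_of_le (by positivity) (by have : 0 < q ^ 6 := by positivity
                                                 linarith)
  have hr4 : 1 / (8 * q ^ 6) < 1 / q ^ 6 :=
    one_div_lt_one_div_of_lt (by positivity) (by have : 0 < q ^ 6 := by positivity
                                                 linarith)
  have hv : ‖(y : ℂ) * I‖ = |y| := by
    rw [norm_mul, Complex.norm_I, mul_one, Complex.norm_real, Real.norm_eq_abs]
  set T0 : ℂ := (X : ℂ) / ((K : ℂ) + b) with hT0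
  -- the functions
  let f : ℂ → ℂ := fun u => ((X : ℂ) * Complex.exp (-u) + T0 * (Complex.exp (K * u) * (1 + p u))) -
    ((X : ℂ) + T0) - (X * K / 2 : ℂ) * u ^ 2
  let f1 : ℂ → ℂ := fun u => -(X : ℂ) * Complex.exp (-u) +
    T0 * (Complex.exp (K * u) * (K * (1 + p u) + deriv p u)) - (X * K : ℂ) * u
  let f2 : ℂ → ℂ := fun u => (X : ℂ) * Complex.exp (-u) +
    T0 * (Complex.exp (K * u) * (K ^ 2 * (1 + p u) + 2 * K * deriv p u + deriv (deriv p) u)) -
      (X * K : ℂ)
  have hpd : ∀ u ∈ ball (0 : ℂ) (1 / q ^ 6), HasDerivAt p (deriv p u) u := fun u hu =>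
    (hp.diff.differentiableAt (isOpen_ball.mem_nhds hu)).hasDerivAt
  have hpd2 : ∀ u ∈ ball (0 : ℂ) (1 / q ^ 6), HasDerivAt (deriv p) (deriv (deriv p) u) u :=
    fun u hu => ((hp.diff.deriv isOpen_ball).differentiableAt (isOpen_ball.mem_nhds hu)).hasDerivAt
  have hexp : ∀ u : ℂ, HasDerivAt (fun u : ℂ => Complex.exp (K * u)) (Complex.exp (K * u) * K) u := by
    intro u
    have h1 : HasDerivAt (fun u : ℂ => (K : ℂ) * u) (K : ℂ) u := by
      simpa using (hasDerivAt_id u).const_mul (K : ℂ)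
    exact h1.cexp
  have hexp2 : ∀ u : ℂ, HasDerivAt (fun u : ℂ => Complex.exp (-u)) (-Complex.exp (-u)) u := by
    intro u
    have h1 : HasDerivAt (fun u : ℂ => -u) (-1 : ℂ) u := hasDerivAt_neg u
    exact h1.cexp.congr_deriv (by ring)
  have d1 : ∀ u ∈ ball (0 : ℂ) (1 / q ^ 6), HasDerivAt f (f1 u) u := by
    intro u hu
    have h1 := (((hexp2 u).const_mul (X : ℂ)).add
      (((hexp u).mul ((hpd u hu).const_add 1)).const_mul T0)).sub_const ((X : ℂ) + T0)
    have h2 := (hasDerivAt_pow 2 u).const_mul (X * K / 2 : ℂ)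
    refine (h1.sub h2).congr_deriv ?_
    simp only [f1]
    push_cast
    ring
  have d2 : ∀ u ∈ ball (0 : ℂ) (1 / q ^ 6), HasDerivAt f1 (f2 u) u := by
    intro u hu
    have h1 := ((hexp2 u).const_mul (-(X : ℂ))).add
      (((hexp u).mul ((((hpd u hu).const_add 1).const_mul (K : ℂ)).add (hpd2 u hu))).const_mul T0)
    have h2 := (hasDerivAt_id u).const_mul (X * K : ℂ)
    refine (h1.sub h2).congr_deriv ?_
    simp only [f2, Pi.add_apply]
    ring
  have hf0 : f 0 = 0 := by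
    simp only [f, hp.zero]
    simp
  have hf10 : f1 0 = 0 := by
    simp only [f1, hp.zero, ← hb]
    simp only [neg_zero, Complex.exp_zero, mul_one, mul_zero, add_zero, one_mul, sub_zero]
    rw [hT0, div_mul_cancel₀ _ hKb0]
    ring
  have hseg : ∀ s : ℝ, s ∈ Icc (0 : ℝ) 1 → ‖(s : ℂ) * ((y : ℂ) * I)‖ ≤ 1 / (4 * q ^ 8) := by
    intro s hs
    rw [norm_mul, hv, Complex.norm_real, Real.norm_of_nonneg hs.1]
    calc s * |y| ≤ 1 * |y| := mul_le_mul_of_nonneg_right hs.2 (abs_nonneg y)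
      _ ≤ 1 / (4 * q ^ 8) := by rw [one_mul]; exact hy
  have hmem : ∀ s : ℝ, s ∈ Icc (0 : ℝ) 1 → (s : ℂ) * ((y : ℂ) * I) ∈ ball (0 : ℂ) (1 / q ^ 6) := by
    intro s hs
    rw [mem_ball_zero_iff]
    exact ((hseg s hs).trans hr).trans_lt hr4
  have hfin := taylor2 f f1 f2 ((y : ℂ) * I) (3 / 10 * (X * K))
    (fun s hs => d1 _ (hmem s hs)) (fun s hs => d2 _ (hmem s hs)) hf0 hf10 (by
      intro s hs
      set u : ℂ := (s : ℂ) * ((y : ℂ) * I) with hu
      have hun := hseg s hs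
      rw [← hu] at hun
      have hform : u = ((s * y : ℝ) : ℂ) * I := by rw [hu]; push_cast; ring
      have p0 := hp.b0 u ((hun.trans hr).trans hr3)
      have p1 := hp.b1 u ((hun.trans hr).trans hr2)
      have p2 := hp.b2 u (hun.trans hr)
      have p0' : ‖p u‖ ≤ 4 / q ^ 5 := by
        refine p0.trans ?_
        calc 16 * q ^ 3 * ‖u‖ ≤ 16 * q ^ 3 * (1 / (4 * q ^ 8)) := by gcongr
          _ = 4 / q ^ 5 := by field_simp; ring
      have hE1 : ‖Complex.exp (-u)‖ = 1 := by
        rw [hform, ← neg_mul, ← Complex.ofReal_neg, Complex.norm_exp_ofReal_mul_I]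
      have hE2 : ‖Complex.exp (K * u)‖ = 1 := by
        rw [hform, ← mul_assoc, ← Complex.ofReal_mul, Complex.norm_exp_ofReal_mul_I]
      have hE3 : ‖Complex.exp (K * u) - 1‖ ≤ 1 / 4 := by
        have h1 : (K : ℂ) * u = I * ((K * (s * y) : ℝ) : ℂ) := by
          rw [hform]; push_cast; ring
        rw [h1]
        refine (Real.norm_exp_I_mul_ofReal_sub_one_le).trans ?_
        rw [Real.norm_eq_abs, abs_mul, abs_of_pos hK0]
        have h2 : |s * y| = ‖u‖ := by
          rw [hform, norm_mul, Complex.norm_I, mul_one, Complex.norm_real, Real.norm_eq_abs]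
        rw [h2]
        calc K * ‖u‖ ≤ K * (1 / (4 * q ^ 8)) := by gcongr
          _ = 1 / 4 := by rw [hK]; field_simp
      have hmul : ((K : ℂ) + b) * f2 u = (X : ℂ) * (((K : ℂ) + b) * Complex.exp (-u) +
          K ^ 2 * (Complex.exp (K * u) - 1) +
          Complex.exp (K * u) * (K ^ 2 * p u + 2 * K * deriv p u + deriv (deriv p) u) - K * b) := by
        simp only [f2]
        have : ((K : ℂ) + b) * T0 = X := by rw [hT0, mul_div_cancel₀ _ hKb0]
        linear_combination (Complex.exp (K * u) * (K ^ 2 * (1 + p u) + 2 * K * deriv p u +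
          deriv (deriv p) u)) * this
      have hnorm : ‖((K : ℂ) + b) * f2 u‖ ≤ X * ((K + ‖b‖) + K ^ 2 * (1 / 4) +
          (K ^ 2 * (4 / q ^ 5) + 2 * K * (32 * q ^ 3) + 256 * q ^ 9) + K * ‖b‖) := by
        rw [hmul, norm_mul, Complex.norm_real, Real.norm_of_nonneg hX.le]
        refine mul_le_mul_of_nonneg_left ?_ hX.le
        have hKn : ‖(K : ℂ)‖ = K := by rw [Complex.norm_real, Real.norm_of_nonneg hK0.le]
        refine (norm_sub_le _ _).trans (add_le_add ?_ ?_)
        · refine (norm_add_le _ _).trans (add_le_add ?_ ?_)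
          · refine (norm_add_le _ _).trans (add_le_add ?_ ?_)
            · rw [norm_mul, hE1, mul_one]
              refine (norm_add_le _ _).trans ?_
              rw [hKn]
            · rw [norm_mul, norm_pow, hKn]
              gcongr
          · rw [norm_mul, hE2, one_mul]
            refine (norm_add_le _ _).trans (add_le_add ?_ p2)
            refine (norm_add_le _ _).trans (add_le_add ?_ ?_)
            · rw [norm_mul, norm_pow, hKn]
              gcongr
            · rw [norm_mul, norm_mul, hKn]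
              have : ‖(2 : ℂ)‖ = 2 := by norm_num
              rw [this]
              gcongr
        · rw [norm_mul, hKn]
      have hsmall : (K + ‖b‖) + K ^ 2 * (1 / 4) +
          (K ^ 2 * (4 / q ^ 5) + 2 * K * (32 * q ^ 3) + 256 * q ^ 9) + K * ‖b‖ ≤
          K ^ 2 * (26 / 100) := by
        have g0 : K ^ 2 = q ^ 11 * q ^ 5 := by rw [hK]; ring
        have g1 : K ^ 2 * (4 / q ^ 5) = 4 * q ^ 11 := by rw [hK]; field_simp
        have g2 : 2 * K * (32 * q ^ 3) = 64 * q ^ 11 := by rw [hK]; ring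
        have g3 : K * ‖b‖ ≤ 32 * q ^ 11 := by
          calc K * ‖b‖ ≤ K * (32 * q ^ 3) := by gcongr
            _ = 32 * q ^ 11 := by rw [hK]; ring
        have g4 : K ≤ q ^ 11 := by rw [hK]; exact pow_le_pow_right₀ hq1 (by norm_num)
        have g5 : q ^ 9 ≤ q ^ 11 := pow_le_pow_right₀ hq1 (by norm_num)
        have g6 : ‖b‖ ≤ 32 * q ^ 11 := by
          refine hbn.trans ?_
          have : q ^ 3 ≤ q ^ 11 := pow_le_pow_right₀ hq1 (by norm_num)
          linarith
        have g7 : (10 : ℝ) ^ 40 * q ^ 11 ≤ K ^ 2 := by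
          rw [g0]
          have : 0 < q ^ 11 := by positivity
          nlinarith
        rw [g1, g2]
        have g8 : 0 < q ^ 11 := by positivity
        have g9 : (10 : ℝ) ^ 40 = 10 ^ 40 := rfl
        norm_num at g7
        linarith
      have h1 : K * (99 / 100) * ‖f2 u‖ ≤ X * (K ^ 2 * (26 / 100)) := by
        calc K * (99 / 100) * ‖f2 u‖ ≤ ‖(K : ℂ) + b‖ * ‖f2 u‖ := by gcongr
          _ = ‖((K : ℂ) + b) * f2 u‖ := by rw [norm_mul]
          _ ≤ _ := hnorm
          _ ≤ X * (K ^ 2 * (26 / 100)) := by gcongr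
      have h2 : K * ‖f2 u‖ ≤ K * (3 / 10 * (X * K)) := by
        have hXK : 0 ≤ X * K ^ 2 := by positivity
        nlinarith
      exact le_of_mul_le_mul_left h2 hK0)
  have hgoal : ((X : ℂ) * Complex.exp (-((y : ℂ) * I)) + TT q X p y) - ((X : ℂ) + TT q X p 0) +
        ((X * q ^ 8 / 2 * y ^ 2 : ℝ) : ℂ) = f ((y : ℂ) * I) := by
    simp only [f, TT, hqK, ← hb, ← hK]
    have h0 : Complex.exp (((K * 0 : ℝ) : ℂ) * I) * (1 + p (((0 : ℝ) : ℂ) * I)) = 1 := by
      simp [hp.zero]
    rw [h0]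
    have h1 : (((K * y : ℝ) : ℂ) * I) = (K : ℂ) * ((y : ℂ) * I) := by push_cast; ring
    rw [h1]
    have h2 : ((y : ℂ) * I) ^ 2 = -(y : ℂ) ^ 2 := by
      rw [mul_pow, Complex.I_sq]; ring
    rw [h2, mul_one, ← hT0]
    push_cast
    ring
  rw [hgoal]
  refine hfin.trans (le_of_eq ?_)
  rw [hv, sq_abs]
  ring

end Pool.Agent.Y314.LT
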